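import Pool.Agent.W788.NW.Stm

/-!
# Project NW: drift of the weighted dependences (PSA)
-/

namespace Pool.Agent.W616.NW

open Finset Pool.Agent.W788.NV Pool.Agent.W788.NW

section aux

variable {V : Type} [Fintype V] [DecidableEq V] {q : ℕ}

/-- comparison of the weighted dependences of two maps -/
lemma wa_mono (ω : V → V → ℝ) (j : V) (h0 : ∀ y, 0 ≤ ω j y) (Ψ Ψ' : Mp V q)
    (h : ∀ y, dep Ψ' y ⊆ dep Ψ y) : wa ω j Ψ' ≤ wa ω j Ψ := by
  unfold wa
  refine Finset.sum_le_sum (fun y _ => ?_)
  by_cases h1 : j ∈ dep Ψ' y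
  · rw [if_pos h1, if_pos (h y h1)]
  · rw [if_neg h1]
    split_ifs
    · exact h0 y
    · exact le_refl _

/-- the map which forgets `y` -/
lemma wa_kill (ω : V → V → ℝ) (j : V) (h0 : ∀ y, 0 ≤ ω j y) (Ψ Ψ' : Mp V q) (y : V)
    (hy : dep Ψ' y = ∅) (h : ∀ y, dep Ψ' y ⊆ dep Ψ y) :
    wa ω j Ψ' - wa ω j Ψ ≤ -(if j ∈ dep Ψ y then ω j y else 0) := by
  have e : (if j ∈ dep Ψ y then ω j y else 0) =
      ∑ y', if y' = y then (if j ∈ dep Ψ y then ω j y else 0) else 0 := by
    rw [Finset.sum_ite_eq' univ y]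
    simp
  have : wa ω j Ψ' + (if j ∈ dep Ψ y then ω j y else 0) ≤ wa ω j Ψ := by
    rw [e]
    unfold wa
    rw [← Finset.sum_add_distrib]
    refine Finset.sum_le_sum (fun y' _ => ?_)
    by_cases hyy : y' = y
    · subst hyy
      rw [hy]
      simp
    · rw [if_neg hyy, add_zero]
      by_cases h1 : j ∈ dep Ψ' y'
      · rw [if_pos h1, if_pos (h y' h1)]
      · rw [if_neg h1]
        split_ifs
        · exact h0 y'
        · exact le_refl _
  linarith

/-- the map which copies `w` to `y` -/
lemma wa_copy (ω : V → V → ℝ) (j : V) (h0 : ∀ y, 0 ≤ ω j y) (Ψ Ψ' : Mp V q) (y w : V)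
    (hwy : w ≠ y) (hy : dep Ψ' y = ∅) (hw : dep Ψ' w ⊆ dep Ψ w ∪ dep Ψ y)
    (h : ∀ y', y' ≠ w → dep Ψ' y' ⊆ dep Ψ y') :
    wa ω j Ψ' - wa ω j Ψ ≤ if j ∈ dep Ψ y then ω j w - ω j y else 0 := by
  have e : (if j ∈ dep Ψ y then ω j y else 0) =
      ∑ y', if y' = y then (if j ∈ dep Ψ y then ω j y else 0) else 0 := by
    rw [Finset.sum_ite_eq' univ y]
    simp
  have e2 : (if j ∈ dep Ψ y then ω j w else 0) =
      ∑ y', if y' = w then (if j ∈ dep Ψ y then ω j w else 0) else 0 := by
    rw [Finset.sum_ite_eq' univ w]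
    simp
  have : wa ω j Ψ' + (if j ∈ dep Ψ y then ω j y else 0) ≤
      wa ω j Ψ + (if j ∈ dep Ψ y then ω j w else 0) := by
    rw [e, e2]
    unfold wa
    rw [← Finset.sum_add_distrib, ← Finset.sum_add_distrib]
    refine Finset.sum_le_sum (fun y' _ => ?_)
    by_cases hyy : y' = y
    · subst hyy
      have : ¬ (y' = w) := fun h => hwy h.symm
      rw [hy, if_pos rfl, if_neg this]
      simp
    · rw [if_neg hyy, add_zero]
      by_cases hyw : y' = w
      · subst hyw
        rw [if_pos rfl]
        have hx := h0 y'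
        by_cases h1 : j ∈ dep Ψ' y'
        · rw [if_pos h1]
          rcases Finset.mem_union.1 (hw h1) with h2 | h2
          · rw [if_pos h2]
            split_ifs
            · linarith
            · linarith
          · rw [if_pos h2]
            split_ifs
            · linarith
            · linarith
        · rw [if_neg h1]
          split_ifs <;> linarith
      · rw [if_neg hyw, add_zero]
        by_cases h1 : j ∈ dep Ψ' y'
        · rw [if_pos h1, if_pos (h y' hyw h1)]
        · rw [if_neg h1]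
          split_ifs
          · exact h0 y'
          · exact le_refl _
  by_cases hj : j ∈ dep Ψ y
  · rw [if_pos hj] at this ⊢
    rw [if_pos hj] at this
    linarith
  · rw [if_neg hj] at this ⊢
    rw [if_neg hj] at this
    linarith

end aux

/-- PSA -/
theorem psa_ (h1 : S_DR) (h2 : S_POS) (h3 : S_TOT) : S_PSA := by
  intro V _ _ G q θ Δ η S ω hy a b k z j p hk hp
  obtain ⟨U, Ψ⟩ := p
  have hp' : dep Ψ U = ∅ := hp
  have hq : (0 : ℝ) < q := by
    have := hy.q2
    exact_mod_cast (by omega : 0 < q)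
  have hq1 : 1 ≤ q := by have := hy.q2; omega
  have ht0 := hy.t0
  have ht1 := hy.t1
  have heta := hy.wt.eta
  have hω : ∀ y, 0 ≤ ω j y := fun y => le_trans zero_le_one (hy.wt.one j y)
  obtain ⟨hr, htot⟩ := h3 V G q θ hq1 ht0.le ht1.le hy.d1
  -- the quantities
  set I : V → ℝ := fun y => if j ∈ dep Ψ y then ω j y else 0 with hI
  set H : V → Fin q → ℝ := fun y c => hit (k U) z (fun x => Ψ (Function.update x y c)) with hH
  have hI0 : ∀ y, 0 ≤ I y := by
    intro y
    simp only [hI]
    split_ifs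
    · exact hω y
    · exact le_refl _
  have hIU : I U = 0 := by simp [hI, hp']
  have hpos : ∀ (v : V) (Φ : Mp V q), 0 ≤ hit (k v) z Φ :=
    fun v Φ => (h2 V q (k v) z Φ v (fun _ => a) (hk v)).1
  have hH0 : ∀ y c, 0 ≤ H y c := fun y c => hpos U _
  -- total rates of the reads
  have hrate : ∀ y, ∑ w, mrate G q θ (Sum.inr (y, w)) = 1 - θ := by
    intro y
    have := htot (fun v => if v = y then 1 else 0)
    rw [Fintype.sum_sum_type, Fintype.sum_prod_type, Fintype.sum_prod_type] at this
    simp only [site, mul_ite, mul_one, mul_zero] at this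
    have e1 : ∑ x : V, ∑ _y : Fin q, (if x = y then mrate G q θ (Sum.inl (x, _y)) else 0) = θ := by
      have : ∀ x : V, ∑ _y : Fin q, (if x = y then mrate G q θ (Sum.inl (x, _y)) else 0) =
          if x = y then θ else 0 := by
        intro x
        split_ifs
        · simp only [mrate]
          rw [Finset.sum_const, card_univ, Fintype.card_fin, nsmul_eq_mul]
          field_simp
        · simp
      simp only [this]
      simp
    have e2 : ∑ x : V, ∑ w : V, (if x = y then mrate G q θ (Sum.inr (x, w)) else 0) =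
        ∑ w, mrate G q θ (Sum.inr (y, w)) := by
      have : ∀ x : V, ∑ w : V, (if x = y then mrate G q θ (Sum.inr (x, w)) else 0) =
          if x = y then ∑ w, mrate G q θ (Sum.inr (x, w)) else 0 := by
        intro x
        split_ifs <;> simp
      simp only [this]
      simp
    rw [e1, e2] at this
    simp at this
    linarith
  -- (ii)
  have A1 : ∀ (y : V) (c : Fin q),
      srate G q θ (Sum.inl (Sum.inl (y, c))) *
        ((wa ω j (sm a b (Sum.inl (Sum.inl (y, c))) (U, Ψ)).2 - wa ω j Ψ) *
          hit (k (sm a b (Sum.inl (Sum.inl (y, c))) (U, Ψ)).1) z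
            (sm a b (Sum.inl (Sum.inl (y, c))) (U, Ψ)).2) ≤
      -(θ / q) * (I y * H y c) := by
    intro y c
    have hs : srate G q θ (Sum.inl (Sum.inl (y, c))) = θ / q := rfl
    rw [hs]
    by_cases hyU : y = U
    · subst hyU
      have : sm a b (Sum.inl (Sum.inl (y, c))) (y, Ψ) = (y, Ψ) := by
        simp [sm, site]
      rw [this, hIU]
      simp
    · have : sm a b (Sum.inl (Sum.inl (y, c))) (U, Ψ) =
          (U, fun x => Ψ (Function.update x y c)) := by
        simp [sm, site, hyU, actv]
      rw [this]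
      obtain ⟨ha, hb⟩ := (h1 V q Ψ y).2.1 c
      have hd := wa_kill ω j hω Ψ (fun x => Ψ (Function.update x y c)) y ha hb
      have hdd : wa ω j (fun x => Ψ (Function.update x y c)) - wa ω j Ψ ≤ -(I y) := hd
      have := mul_le_mul_of_nonneg_right hdd (hH0 y c)
      have h4 : (0 : ℝ) ≤ θ / q := by positivity
      have := mul_le_mul_of_nonneg_left this h4
      simp only [hH] at this ⊢
      linarith
  -- (iii), (iv)
  have A2 : ∀ (y w : V),
      srate G q θ (Sum.inl (Sum.inr (y, w))) *
        ((wa ω j (sm a b (Sum.inl (Sum.inr (y, w))) (U, Ψ)).2 - wa ω j Ψ) *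
          hit (k (sm a b (Sum.inl (Sum.inr (y, w))) (U, Ψ)).1) z
            (sm a b (Sum.inl (Sum.inr (y, w))) (U, Ψ)).2) ≤
      mrate G q θ (Sum.inr (y, w)) * (η * (I y * ∑ c, H y c)) := by
    intro y w
    have hs : srate G q θ (Sum.inl (Sum.inr (y, w))) = mrate G q θ (Sum.inr (y, w)) := rfl
    rw [hs]
    have hr' := hr (Sum.inr (y, w))
    have hsum0 : 0 ≤ ∑ c, H y c := Finset.sum_nonneg (fun c _ => hH0 y c)
    by_cases hadj : G.Adj y w
    swap
    · have : mrate G q θ (Sum.inr (y, w)) = 0 := by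
        simp [mrate, hadj]
      rw [this]
      simp
    refine mul_le_mul_of_nonneg_left ?_ hr'
    by_cases hyU : y = U
    · subst hyU
      have : sm a b (Sum.inl (Sum.inr (y, w))) (y, Ψ) = (y, Ψ) := by
        simp [sm, site]
      rw [this, hIU]
      simp
    · by_cases hwU : w = U
      · subst hwU
        have : sm a b (Sum.inl (Sum.inr (y, w))) (w, Ψ) =
            (w, fun x => Ψ (Function.update x y a)) := by
          simp [sm, site, hyU, actv]
        rw [this]
        obtain ⟨_, hb⟩ := (h1 V q Ψ y).2.1 a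
        have hd := wa_mono ω j hω Ψ (fun x => Ψ (Function.update x y a)) hb
        have hd' : wa ω j (fun x => Ψ (Function.update x y a)) - wa ω j Ψ ≤ 0 := by linarith
        have hle := mul_nonpos_of_nonpos_of_nonneg hd' (hH0 y a)
        have h5 : 0 ≤ η * (I y * ∑ c, H y c) :=
          mul_nonneg heta (mul_nonneg (hI0 y) hsum0)
        simp only [hH] at hle h5 ⊢
        linarith
      · have : sm a b (Sum.inl (Sum.inr (y, w))) (U, Ψ) =
            (U, fun x => Ψ (Function.update x y (x w))) := by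
          simp [sm, site, hyU, actv, hwU]
        rw [this]
        have hwy : w ≠ y := fun h => by subst h; exact G.irrefl hadj
        obtain ⟨ha, hb, hc⟩ := (h1 V q Ψ y).2.2.1 w hwy
        have hd := wa_copy ω j hω Ψ (fun x => Ψ (Function.update x y (x w))) y w hwy ha hb hc
        have hd' : wa ω j (fun x => Ψ (Function.update x y (x w))) - wa ω j Ψ ≤ η * I y := by
          refine hd.trans ?_
          simp only [hI]
          split_ifs
          · have := hy.wt.adj j y w hadj
            linarith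
          · simp
        have hh := (h2 V q (k U) z Ψ y (fun x => x w) (hk U)).2.1
        have hn := hpos U (fun x => Ψ (Function.update x y (x w)))
        have h6 : 0 ≤ η * I y := mul_nonneg heta (hI0 y)
        calc (wa ω j (fun x => Ψ (Function.update x y (x w))) - wa ω j Ψ) *
              hit (k U) z (fun x => Ψ (Function.update x y (x w)))
            ≤ (η * I y) * hit (k U) z (fun x => Ψ (Function.update x y (x w))) :=
              mul_le_mul_of_nonneg_right hd' hn
          _ ≤ (η * I y) * ∑ c, H y c := mul_le_mul_of_nonneg_left hh h6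
          _ = η * (I y * ∑ c, H y c) := by ring
  -- (v)
  have A3 : ∀ (y w : V),
      srate G q θ (Sum.inr (y, w)) *
        ((wa ω j (sm a b (Sum.inr (y, w)) (U, Ψ)).2 - wa ω j Ψ) *
          hit (k (sm a b (Sum.inr (y, w)) (U, Ψ)).1) z
            (sm a b (Sum.inr (y, w)) (U, Ψ)).2) ≤ 0 := by
    intro y w
    have hs : srate G q θ (Sum.inr (y, w)) = mrate G q θ (Sum.inr (y, w)) := rfl
    rw [hs]
    have hr' := hr (Sum.inr (y, w))
    by_cases hyU : y = U
    · subst hyU
      have : sm a b (Sum.inr (y, w)) (y, Ψ) =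
          (w, fun x => Ψ (Function.update x w b)) := by
        simp [sm]
      rw [this]
      obtain ⟨_, hb⟩ := (h1 V q Ψ w).2.1 b
      have hd := wa_mono ω j hω Ψ (fun x => Ψ (Function.update x w b)) hb
      have hd' : wa ω j (fun x => Ψ (Function.update x w b)) - wa ω j Ψ ≤ 0 := by linarith
      exact mul_nonpos_of_nonneg_of_nonpos hr'
        (mul_nonpos_of_nonpos_of_nonneg hd' (hpos w _))
    · have : sm a b (Sum.inr (y, w)) (U, Ψ) = (U, Ψ) := by
        simp [sm, hyU]
      rw [this]
      simp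
  -- the sum
  rw [Fintype.sum_sum_type, Fintype.sum_sum_type, Fintype.sum_prod_type, Fintype.sum_prod_type,
    Fintype.sum_prod_type]
  have B1 := Finset.sum_le_sum (fun y (_ : y ∈ (univ : Finset V)) =>
    Finset.sum_le_sum (fun c (_ : c ∈ (univ : Finset (Fin q))) => A1 y c))
  have B2 := Finset.sum_le_sum (fun y (_ : y ∈ (univ : Finset V)) =>
    Finset.sum_le_sum (fun w (_ : w ∈ (univ : Finset V)) => A2 y w))
  have B3 := Finset.sum_le_sum (fun y (_ : y ∈ (univ : Finset V)) =>
    Finset.sum_le_sum (fun w (_ : w ∈ (univ : Finset V)) => A3 y w))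
  have hwa : wa ω j Ψ = ∑ y, I y := rfl
  have C : ∑ y : V, ∑ c : Fin q, -(θ / q) * (I y * H y c) +
      ∑ y : V, ∑ w : V, mrate G q θ (Sum.inr (y, w)) * (η * (I y * ∑ c, H y c)) ≤
      -(θ / (2 * q)) * ((∑ y, I y) * hit (k U) z Ψ) := by
    have D1 : ∀ y, ∑ c : Fin q, -(θ / q) * (I y * H y c) =
        -(θ / q) * (I y * ∑ c, H y c) := by
      intro y
      rw [Finset.mul_sum, Finset.mul_sum]
    have D2 : ∀ y, ∑ w : V, mrate G q θ (Sum.inr (y, w)) * (η * (I y * ∑ c, H y c)) =
        (1 - θ) * (η * (I y * ∑ c, H y c)) := by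
      intro y
      rw [← Finset.sum_mul, hrate y]
    simp only [D1, D2]
    rw [← Finset.sum_add_distrib, Finset.sum_mul, Finset.mul_sum]
    refine Finset.sum_le_sum (fun y _ => ?_)
    have hB := (h2 V q (k U) z Ψ y (fun _ => a) (hk U)).2.2.1
    have hB' : hit (k U) z Ψ ≤ ∑ c, H y c := hB
    have hN := hpos U Ψ
    have hIy := hI0 y
    have hs : I y * hit (k U) z Ψ ≤ I y * ∑ c, H y c := mul_le_mul_of_nonneg_left hB' hIy
    have hs0 : 0 ≤ I y * ∑ c, H y c := le_trans (mul_nonneg hIy hN) hs
    have het : (1 - θ) * η ≤ θ / (2 * q) := by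
      rw [le_div_iff₀ (by positivity)]
      have := hy.et
      linarith
    have h7 : (1 - θ) * (η * (I y * ∑ c, H y c)) ≤ θ / (2 * q) * (I y * ∑ c, H y c) := by
      have := mul_le_mul_of_nonneg_right het hs0
      linarith
    have h8 : -(θ / q) = -(θ / (2 * q)) - θ / (2 * q) := by
      field_simp
      ring
    have h9 : θ / (2 * q) * (I y * hit (k U) z Ψ) ≤ θ / (2 * q) * (I y * ∑ c, H y c) :=
      mul_le_mul_of_nonneg_left hs (by positivity)
    rw [h8]
    nlinarith [h7, h9]
  have hz : ∑ y : V, ∑ _w : V, (0 : ℝ) = 0 := by simp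
  rw [hz] at B3
  show _ ≤ -(θ / (2 * q)) * (wa ω j Ψ * hit (k U) z Ψ)
  rw [hwa]
  rw [hwa] at B1 B2 B3
  linarith

end Pool.Agent.W616.NW
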